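import Pool.Agent.Work.FiniteRankNormal.Final

open MeasureTheory

namespace Pool.Agent.Results.MP_8c7e5b_an.FiniteRank

universe v

/-- The operator `T` has trace `c`: in every countable orthonormal basis `e` the series of the
diagonal entries of `T` converges unconditionally (hence absolutely) to `c`. -/
def HasTrace {H : Type v} [NormedAddCommGroup H] [InnerProductSpace ℂ H] (T : H →L[ℂ] H) (c : ℂ) :
    Prop :=
  ∀ (ι : Type) [Countable ι] (e : HilbertBasis ι ℂ H), HasSum (fun i => inner ℂ (e i) (T (e i))) c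

/-- `∫ v · (derivative of f in the direction v) dν` for the real measure `ν = μ₁ - μ₂`. -/
noncomputable def dint (f : ℂ → ℂ) (v : ℂ) (μ₁ μ₂ : Measure ℂ) : ℂ :=
  (∫ z : ℂ, fderiv ℝ f z v ∂μ₁) - ∫ z : ℂ, fderiv ℝ f z v ∂μ₂

/-- The function `f` of the normal operator `N` (continuous functional calculus). -/
noncomputable def func {H : Type v} [NormedAddCommGroup H] [InnerProductSpace ℂ H]
    [CompleteSpace H] (f : ℂ → ℂ) (N : H →L[ℂ] H) : H →L[ℂ] H := cfc f N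

/-- The trace formula `trace (f(N₂) - f(N₁)) = ∫ f_x dν₁ + ∫ f_y dν₂` for all `f` in `C_c^∞`, with
the real measures `ν₁ = μ 0 - μ 1` and `ν₂ = μ 2 - μ 3`. -/
def TraceFormula {H : Type v} [NormedAddCommGroup H] [InnerProductSpace ℂ H] [CompleteSpace H]
    (N₁ N₂ : H →L[ℂ] H) (μ : Fin 4 → Measure ℂ) : Prop :=
  ∀ f : ℂ → ℂ, ContDiff ℝ (⊤ : ℕ∞) f → HasCompactSupport f →
    HasTrace (func f N₂ - func f N₁) (dint f 1 (μ 0) (μ 1) + dint f Complex.I (μ 2) (μ 3))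

/-- The trace formula for bounded normal operators on a separable Hilbert space whose difference
has finite rank, `N₂ - N₁ = ∑_{k < r} ⟨y k, ·⟩ x k`, with real measures `μ 0 - μ 1` and `μ 2 - μ 3`
of total mass at most `C r ∑ ‖x k‖ ‖y k‖`, the constant `C` being absolute. -/
theorem result : ∃ C : ℝ, ∀ (H : Type v) [NormedAddCommGroup H] [InnerProductSpace ℂ H]
    [CompleteSpace H] [TopologicalSpace.SeparableSpace H] (N₁ N₂ : H →L[ℂ] H),
    IsStarNormal N₁ → IsStarNormal N₂ →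
    ∀ (r : ℕ) (x y : Fin r → H), (∀ z, N₂ z - N₁ z = ∑ k, inner ℂ (y k) z • x k) →
    ∃ μ : Fin 4 → Measure ℂ, (∀ i, IsFiniteMeasure (μ i)) ∧
      (∀ i, (μ i Set.univ).toReal ≤ C * r * ∑ k, ‖x k‖ * ‖y k‖) ∧ TraceFormula N₁ N₂ μ := by
  obtain ⟨C, hC⟩ := Pool.FR.main.{v}
  refine ⟨C, fun H _ _ _ _ N₁ N₂ h1 h2 r x y hD => ?_⟩
  obtain ⟨μ, h3, h4, h5⟩ := hC H N₁ N₂ h1 h2 r x y (by
    ext z
    rw [_root_.sum_apply]
    exact hD z)
  refine ⟨μ, h3, h4, fun f hf hfc => ?_⟩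
  have h6 := h5 f hf hfc
  have h7 : dint f 1 (μ 0) (μ 1) + dint f Complex.I (μ 2) (μ 3) =
      (∫ z : ℂ, fderiv ℝ f z 1 ∂(μ 0)) - (∫ z : ℂ, fderiv ℝ f z 1 ∂(μ 1)) +
            (∫ z : ℂ, fderiv ℝ f z Complex.I ∂(μ 2)) -
            (∫ z : ℂ, fderiv ℝ f z Complex.I ∂(μ 3)) := by
    unfold dint; ring
  rw [h7]
  exact h6

end Pool.Agent.Results.MP_8c7e5b_an.FiniteRank
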